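import Pool.Agent.X144.Hm.Mom

/-!
Exponents: the growth of the high moments and the mass.
-/

set_option autoImplicit false

namespace Pool.Agent.X144.Hm

open Pool.Agent.TH795.EP Pool.Agent.TH795.EP2 Pool.Agent.TH795.SE2 Pool.Agent.TH262.SawL Pool.Agent.Y981.L2 Pool.Agent.Y981.L2X Pool.Agent.X144.Fi H981 Finset Filter Topology

/-- lower power bounds along a sequence give lower power bounds -/
theorem seq_low {g : ℝ → ℝ} (hg : ∀ x y : ℝ, 0 < x → x ≤ y → g x ≤ g y) {C D a γ σ : ℝ}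
    (hC : 0 < C) (hD : 0 < D) (ha1 : a < 1) (hγ : 0 < γ) (hσ : 1 / (1 - a) * γ < σ)
    (h : ∀ᶠ n : ℕ in atTop, D * (n : ℝ) ^ (-γ) ≤ g (C * (n : ℝ) ^ (a - 1))) :
    ∀ᶠ v in 𝓝[>] (0 : ℝ), v ^ σ ≤ g v := by
  have hs : 0 < 1 - a := by linarith
  have hN := tendsto_nat_ceil_atTop.comp (tendsto_len_of (C := C) (a := a) hC ha1)
  obtain ⟨s, hs'⟩ : ∃ s, s = 1 / (1 - a) := ⟨_, rfl⟩
  have hs0 : 0 < s := by rw [hs']; positivity
  rw [← hs'] at hσ
  filter_upwards [hN.eventually h, (tendsto_len_of (C := C) (a := a) hC ha1).eventually_ge_atTop 1,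
    ev_small (D⁻¹ * (2 * C ^ s) ^ γ) hσ, self_mem_nhdsWithin] with v h1 h2 h3 h4
  have hv0 : 0 < v := h4
  simp only [Function.comp] at h1
  rw [← hs'] at h1 h2
  obtain ⟨x, hx⟩ : ∃ x, x = (C / v) ^ s := ⟨_, rfl⟩
  rw [← hx] at h1 h2
  obtain ⟨n, hn⟩ : ∃ n, n = ⌈x⌉₊ := ⟨_, rfl⟩
  rw [← hn] at h1
  have hxn : x ≤ n := by rw [hn]; exact Nat.le_ceil _
  have hn0 : (0 : ℝ) < n := by linarith
  have hnx : (n : ℝ) ≤ 2 * x := by
    have := Nat.ceil_lt_add_one (show 0 ≤ x by linarith)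
    rw [← hn] at this
    linarith
  have h7 : C * (n : ℝ) ^ (a - 1) ≤ v := by
    have h8 : C / v ≤ (n : ℝ) ^ (1 - a) := by
      calc C / v = x ^ (1 - a) := by
            rw [hx, ← Real.rpow_mul (by positivity), hs', one_div_mul_cancel hs.ne', Real.rpow_one]
        _ ≤ _ := Real.rpow_le_rpow (by linarith) hxn hs.le
    have h9 : (n : ℝ) ^ (a - 1) = ((n : ℝ) ^ (1 - a))⁻¹ := by
      rw [← Real.rpow_neg hn0.le]; congr 1; ring
    rw [h9, ← div_eq_mul_inv, div_le_iff₀ (by positivity)]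
    rw [div_le_iff₀ hv0] at h8
    linarith
  have h8 := hg _ _ (by positivity) h7
  refine le_trans ?_ (h1.trans h8)
  have h9 : (n : ℝ) ^ (-γ) = ((n : ℝ) ^ γ)⁻¹ := Real.rpow_neg hn0.le _
  have h10 : (n : ℝ) ^ γ ≤ (2 * C ^ s) ^ γ * (v ^ (s * γ))⁻¹ := by
    calc (n : ℝ) ^ γ ≤ (2 * x) ^ γ := Real.rpow_le_rpow hn0.le hnx hγ.le
      _ = _ := by
        rw [hx, Real.div_rpow hC.le hv0.le, Real.rpow_mul hv0.le]
        have e : 2 * (C ^ s / v ^ s) = 2 * C ^ s * (v ^ s)⁻¹ := by ring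
        rw [e, Real.mul_rpow (by positivity) (by positivity), Real.inv_rpow (by positivity)]
  have h11 : 0 < (n : ℝ) ^ γ := by positivity
  have h12 : 0 < v ^ (s * γ) := by positivity
  rw [h9, ← div_eq_mul_inv, le_div_iff₀ h11]
  have h13 : v ^ σ * (n : ℝ) ^ γ ≤ D := by
    calc v ^ σ * (n : ℝ) ^ γ ≤ v ^ σ * ((2 * C ^ s) ^ γ * (v ^ (s * γ))⁻¹) :=
          mul_le_mul_of_nonneg_left h10 (by positivity)
      _ = D * (D⁻¹ * (2 * C ^ s) ^ γ * v ^ σ) * (v ^ (s * γ))⁻¹ := by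
          field_simp
      _ ≤ D * v ^ (s * γ) * (v ^ (s * γ))⁻¹ := by
          apply mul_le_mul_of_nonneg_right _ (by positivity)
          exact mul_le_mul_of_nonneg_left h3 hD.le
      _ = D := by field_simp
  exact h13

/-- upper power bounds along a sequence give upper power bounds -/
theorem seq_up {g : ℝ → ℝ} (hg : ∀ x y : ℝ, 0 < x → x ≤ y → g x ≤ g y) {C D a γ σ : ℝ}
    (hC : 0 < C) (hD : 0 < D) (ha1 : a < 1) (hγ : 0 ≤ γ) (hσ : σ < 1 / (1 - a) * γ)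
    (h : ∀ᶠ n : ℕ in atTop, g (C * (n : ℝ) ^ (a - 1)) ≤ D * (n : ℝ) ^ (-γ)) :
    ∀ᶠ v in 𝓝[>] (0 : ℝ), g v ≤ v ^ σ := by
  have hs : 0 < 1 - a := by linarith
  have hN := tendsto_nat_floor_atTop.comp (tendsto_len_of (C := C) (a := a) hC ha1)
  obtain ⟨s, hs'⟩ : ∃ s, s = 1 / (1 - a) := ⟨_, rfl⟩
  have hs0 : 0 < s := by rw [hs']; positivity
  rw [← hs'] at hσ
  filter_upwards [hN.eventually h, (tendsto_len_of (C := C) (a := a) hC ha1).eventually_ge_atTop 2,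
    ev_small (D * ((1 / 2) * C ^ s) ^ (-γ)) hσ, self_mem_nhdsWithin] with v h1 h2 h3 h4
  have hv0 : 0 < v := h4
  simp only [Function.comp] at h1
  rw [← hs'] at h1 h2
  obtain ⟨x, hx⟩ : ∃ x, x = (C / v) ^ s := ⟨_, rfl⟩
  rw [← hx] at h1 h2
  obtain ⟨n, hn⟩ : ∃ n, n = ⌊x⌋₊ := ⟨_, rfl⟩
  rw [← hn] at h1
  have hxn : (n : ℝ) ≤ x := by rw [hn]; exact Nat.floor_le (by linarith)
  have hnx : 1 / 2 * x ≤ n := by
    have := Nat.lt_floor_add_one x
    rw [← hn] at this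
    linarith
  have hn0 : (0 : ℝ) < n := by linarith
  have h7 : v ≤ C * (n : ℝ) ^ (a - 1) := by
    have h8 : (n : ℝ) ^ (1 - a) ≤ C / v := by
      calc (n : ℝ) ^ (1 - a) ≤ x ^ (1 - a) := Real.rpow_le_rpow hn0.le hxn hs.le
        _ = C / v := by
            rw [hx, ← Real.rpow_mul (by positivity), hs', one_div_mul_cancel hs.ne', Real.rpow_one]
    have h9 : (n : ℝ) ^ (a - 1) = ((n : ℝ) ^ (1 - a))⁻¹ := by
      rw [← Real.rpow_neg hn0.le]; congr 1; ring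
    rw [h9, ← div_eq_mul_inv, le_div_iff₀ (by positivity)]
    rw [le_div_iff₀ hv0] at h8
    linarith
  have h8 := hg _ _ hv0 h7
  refine (h8.trans h1).trans ?_
  have h10 : (n : ℝ) ^ (-γ) ≤ ((1 / 2) * C ^ s) ^ (-γ) * v ^ (s * γ) := by
    calc (n : ℝ) ^ (-γ) ≤ (1 / 2 * x) ^ (-γ) :=
          Real.rpow_le_rpow_of_nonpos (by linarith) hnx (by linarith)
      _ = _ := by
        rw [hx, Real.div_rpow (by positivity) hv0.le, Real.rpow_mul hv0.le]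
        have e : 1 / 2 * (C ^ s / v ^ s) = 1 / 2 * C ^ s * (v ^ s)⁻¹ := by ring
        rw [e, Real.mul_rpow (by positivity) (by positivity), Real.inv_rpow (by positivity),
          Real.rpow_neg (by positivity : 0 ≤ v ^ s), inv_inv]
  calc D * (n : ℝ) ^ (-γ) ≤ D * (((1 / 2) * C ^ s) ^ (-γ) * v ^ (s * γ)) :=
        mul_le_mul_of_nonneg_left h10 hD.le
    _ = D * ((1 / 2) * C ^ s) ^ (-γ) * v ^ (s * γ) := by ring
    _ ≤ _ := h3

/-- the order of the moment -/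
noncomputable def kb (b : ℝ) (n : ℕ) : ℕ := ⌈(n : ℝ) ^ b⌉₊

theorem kb_range {b : ℝ} (hb0 : 0 < b) {n : ℕ} (hn : 1 ≤ n) :
    (n : ℝ) ^ b ≤ kb b n ∧ (kb b n : ℝ) ≤ 2 * (n : ℝ) ^ b := by
  have hn0 : (1 : ℝ) ≤ n := by exact_mod_cast hn
  have h1 : 1 ≤ (n : ℝ) ^ b := Real.one_le_rpow hn0 hb0.le
  refine ⟨Nat.le_ceil _, ?_⟩
  have h2 := Nat.ceil_lt_add_one (show 0 ≤ (n : ℝ) ^ b by linarith)
  unfold kb
  linarith

theorem kb_div {b : ℝ} (hb0 : 0 < b) {n : ℕ} (hn : 1 ≤ n) :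
    (n : ℝ) ^ (b - 1) ≤ (kb b n : ℝ) / n ∧ (kb b n : ℝ) / n ≤ 2 * (n : ℝ) ^ (b - 1) := by
  have hn0 : (0 : ℝ) < n := by exact_mod_cast hn
  obtain ⟨h1, h2⟩ := kb_range hb0 hn
  rw [Real.rpow_sub_one hn0.ne']
  constructor
  · exact div_le_div_of_nonneg_right h1 hn0.le
  · rw [← mul_div_assoc]
    exact div_le_div_of_nonneg_right h2 hn0.le

/-- `X` is of the order of `k / Y981.L2.mass (k / n)` -/
def Sand (b : ℝ) (X : ℕ → ℝ) : Prop := ∃ c C : ℝ, 0 < c ∧ 0 < C ∧ ∀ᶠ n : ℕ in atTop,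
  c * (kb b n / Y981.L2.mass ((kb b n : ℝ) / n)) ≤ X n ∧ X n ≤ C * (kb b n / Y981.L2.mass ((kb b n : ℝ) / n))

theorem tendsto_pow_neg {b : ℝ} (hb1 : b < 1) (C : ℝ) (hC : 0 < C) :
    Tendsto (fun n : ℕ => C * (n : ℝ) ^ (b - 1)) atTop (𝓝[>] 0) := by
  apply tendsto_nhdsWithin_iff.2
  constructor
  · have h1 : Tendsto (fun n : ℕ => C * (n : ℝ) ^ (-(1 - b))) atTop (𝓝 (C * 0)) :=
      ((tendsto_rpow_neg_atTop (by linarith)).comp tendsto_natCast_atTop_atTop).const_mul C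
    rw [mul_zero] at h1
    refine h1.congr ?_
    intro n
    congr 2
    ring
  · filter_upwards [eventually_ge_atTop 1] with n hn
    have hn0 : (0 : ℝ) < n := by exact_mod_cast hn
    show 0 < C * (n : ℝ) ^ (b - 1)
    positivity

theorem mass_mono' : ∀ x y : ℝ, 0 < x → x ≤ y → Y981.L2.mass x ≤ Y981.L2.mass y :=
  fun _ _ hx h => mass_mono hx.le h

theorem low_iff {b θ : ℝ} {X : ℕ → ℝ} (hb0 : 0 < b) (hb1 : b < 1) (hθ : 0 < θ) (hX : Sand b X) :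
    MassLow θ ↔ ∀ ε : ℝ, 0 < ε → ∀ᶠ n : ℕ in atTop, X n ≤ (n : ℝ) ^ (b + θ * (1 - b) + ε) := by
  obtain ⟨c, C, hc, hC, hX⟩ := hX
  have hs : 0 < 1 - b := by linarith
  constructor
  · intro M ε hε
    have hlt : b + θ * (1 - b) + ε * (1 - b) < b + θ * (1 - b) + ε := by nlinarith
    filter_upwards [hX, (tendsto_pow_neg hb1 1 one_pos).eventually (M ε hε),
      ev_pow (2 * C) hlt, eventually_ge_atTop 1] with n h1 h2 h3 hn
    have hn0 : (0 : ℝ) < n := by exact_mod_cast hn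
    rw [one_mul] at h2
    obtain ⟨h4, h5⟩ := kb_range hb0 hn
    obtain ⟨h6, h7⟩ := kb_div hb0 hn
    have hp : 0 < (n : ℝ) ^ (b - 1) := by positivity
    have h8 : ((n : ℝ) ^ (b - 1)) ^ (θ + ε) ≤ Y981.L2.mass ((kb b n : ℝ) / n) :=
      h2.trans (mass_mono' _ _ hp h6)
    have h9 : ((n : ℝ) ^ (b - 1)) ^ (θ + ε) = ((n : ℝ) ^ ((1 - b) * (θ + ε)))⁻¹ := by
      rw [← Real.rpow_mul hn0.le, ← Real.rpow_neg hn0.le]
      congr 1
      ring
    have h10 : 0 < ((n : ℝ) ^ (b - 1)) ^ (θ + ε) := by positivity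
    have h11 : (kb b n : ℝ) / Y981.L2.mass ((kb b n : ℝ) / n) ≤ 2 * (n : ℝ) ^ b *
        (n : ℝ) ^ ((1 - b) * (θ + ε)) := by
      calc (kb b n : ℝ) / Y981.L2.mass ((kb b n : ℝ) / n) ≤ kb b n / ((n : ℝ) ^ (b - 1)) ^ (θ + ε) :=
            div_le_div_of_nonneg_left (Nat.cast_nonneg _) h10 h8
        _ = kb b n * (n : ℝ) ^ ((1 - b) * (θ + ε)) := by rw [h9, div_inv_eq_mul]
        _ ≤ _ := mul_le_mul_of_nonneg_right h5 (by positivity)
    refine h1.2.trans (le_trans ?_ h3)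
    calc C * (kb b n / Y981.L2.mass ((kb b n : ℝ) / n)) ≤ C * (2 * (n : ℝ) ^ b *
          (n : ℝ) ^ ((1 - b) * (θ + ε))) := mul_le_mul_of_nonneg_left h11 hC.le
      _ = 2 * C * ((n : ℝ) ^ b * (n : ℝ) ^ ((1 - b) * (θ + ε))) := by ring
      _ = _ := by
          rw [← Real.rpow_add hn0]
          congr 2
          ring
  · intro A η hη
    have hlt : 1 / (1 - b) * (θ * (1 - b) + η * (1 - b) / 2) < θ + η := by
      have : 1 / (1 - b) * (θ * (1 - b) + η * (1 - b) / 2) = θ + η / 2 := by field_simp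
      rw [this]
      linarith
    refine seq_low mass_mono' (C := 2) (D := c) (a := b) (γ := θ * (1 - b) + η * (1 - b) / 2)
      (by norm_num) hc hb1 (by positivity) hlt ?_
    filter_upwards [hX, A (η * (1 - b) / 2) (by positivity), eventually_ge_atTop 1] with n h1 h2 hn
    have hn0 : (0 : ℝ) < n := by exact_mod_cast hn
    obtain ⟨h4, h5⟩ := kb_range hb0 hn
    obtain ⟨h6, h7⟩ := kb_div hb0 hn
    have hk : (0 : ℝ) < (kb b n : ℝ) / n := lt_of_lt_of_le (by positivity) h6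
    have hm := mass_pos hk
    have h8 := h1.1.trans h2
    have h9 : c * (kb b n : ℝ) ≤ (n : ℝ) ^ (b + θ * (1 - b) + η * (1 - b) / 2) *
        Y981.L2.mass ((kb b n : ℝ) / n) := by
      rw [← mul_div_assoc, div_le_iff₀ hm] at h8
      exact h8
    have h10 : c * (n : ℝ) ^ b ≤ (n : ℝ) ^ (b + θ * (1 - b) + η * (1 - b) / 2) *
        Y981.L2.mass ((kb b n : ℝ) / n) := (mul_le_mul_of_nonneg_left h4 hc.le).trans h9
    have h11 : Y981.L2.mass ((kb b n : ℝ) / n) ≤ Y981.L2.mass (2 * (n : ℝ) ^ (b - 1)) := mass_mono' _ _ hk h7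
    refine le_trans ?_ h11
    have h12 : 0 < (n : ℝ) ^ (b + θ * (1 - b) + η * (1 - b) / 2) := by positivity
    have h13 : (n : ℝ) ^ (-(θ * (1 - b) + η * (1 - b) / 2)) *
        (n : ℝ) ^ (b + θ * (1 - b) + η * (1 - b) / 2) = (n : ℝ) ^ b := by
      rw [← Real.rpow_add hn0]
      congr 1
      ring
    have h14 : c * (n : ℝ) ^ (-(θ * (1 - b) + η * (1 - b) / 2)) *
        (n : ℝ) ^ (b + θ * (1 - b) + η * (1 - b) / 2) ≤ Y981.L2.mass ((kb b n : ℝ) / n) *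
        (n : ℝ) ^ (b + θ * (1 - b) + η * (1 - b) / 2) := by
      rw [mul_assoc, h13]
      linarith
    exact le_of_mul_le_mul_right h14 h12

theorem up_iff {b θ : ℝ} {X : ℕ → ℝ} (hb0 : 0 < b) (hb1 : b < 1) (hθ : 0 < θ) (hX : Sand b X) :
    MassUp θ ↔ ∀ ε : ℝ, 0 < ε → ∀ᶠ n : ℕ in atTop, (n : ℝ) ^ (b + θ * (1 - b) - ε) ≤ X n := by
  obtain ⟨c, C, hc, hC, hX⟩ := hX
  have hs : 0 < 1 - b := by linarith
  constructor
  · intro M ε hε
    obtain ⟨η, hη⟩ : ∃ η, η = min ε θ := ⟨_, rfl⟩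
    have hη0 : 0 < η := by rw [hη]; exact lt_min hε hθ
    have hηε : η ≤ ε := by rw [hη]; exact min_le_left _ _
    have hηθ : η ≤ θ := by rw [hη]; exact min_le_right _ _
    have hlt : b + θ * (1 - b) - ε < b + θ * (1 - b) - η * (1 - b) := by nlinarith
    have hev := ev_pow (2 ^ (θ - η) / c) hlt
    filter_upwards [hX, (tendsto_pow_neg hb1 2 (by norm_num)).eventually (M η hη0),
      hev, eventually_ge_atTop 1] with n h1 h2 h3 hn
    have hn0 : (0 : ℝ) < n := by exact_mod_cast hn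
    obtain ⟨h4, h5⟩ := kb_range hb0 hn
    obtain ⟨h6, h7⟩ := kb_div hb0 hn
    have hk : (0 : ℝ) < (kb b n : ℝ) / n := lt_of_lt_of_le (by positivity) h6
    have hm := mass_pos hk
    have h8 : Y981.L2.mass ((kb b n : ℝ) / n) ≤ (2 * (n : ℝ) ^ (b - 1)) ^ (θ - η) :=
      (mass_mono' _ _ hk h7).trans h2
    have h9 : (2 * (n : ℝ) ^ (b - 1)) ^ (θ - η) =
        2 ^ (θ - η) * ((n : ℝ) ^ ((1 - b) * (θ - η)))⁻¹ := by
      rw [Real.mul_rpow (by norm_num) (by positivity), ← Real.rpow_mul hn0.le,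
        ← Real.rpow_neg hn0.le]
      congr 2
      ring
    rw [h9] at h8
    refine le_trans ?_ h1.1
    have h10 : (n : ℝ) ^ b / (2 ^ (θ - η) * ((n : ℝ) ^ ((1 - b) * (θ - η)))⁻¹) ≤
        kb b n / Y981.L2.mass ((kb b n : ℝ) / n) :=
      div_le_div₀ (Nat.cast_nonneg _) h4 hm h8
    refine le_trans ?_ (mul_le_mul_of_nonneg_left h10 hc.le)
    have h11 : c * ((n : ℝ) ^ b / (2 ^ (θ - η) * ((n : ℝ) ^ ((1 - b) * (θ - η)))⁻¹)) =
        c / 2 ^ (θ - η) * (n : ℝ) ^ (b + θ * (1 - b) - η * (1 - b)) := by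
      have e : b + θ * (1 - b) - η * (1 - b) = b + (1 - b) * (θ - η) := by ring
      rw [e, Real.rpow_add hn0]
      field_simp
    rw [h11]
    have h12 : c / 2 ^ (θ - η) * (2 ^ (θ - η) / c * (n : ℝ) ^ (b + θ * (1 - b) - ε)) =
        (n : ℝ) ^ (b + θ * (1 - b) - ε) := by
      field_simp
    rw [← h12]
    exact mul_le_mul_of_nonneg_left h3 (by positivity)
  · intro A η hη
    obtain ⟨δ, hδ⟩ : ∃ δ, δ = min (η * (1 - b) / 2) (θ * (1 - b)) := ⟨_, rfl⟩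
    have hδ0 : 0 < δ := by rw [hδ]; exact lt_min (by positivity) (by positivity)
    have hδη : δ ≤ η * (1 - b) / 2 := by rw [hδ]; exact min_le_left _ _
    have hδθ : δ ≤ θ * (1 - b) := by rw [hδ]; exact min_le_right _ _
    have hlt : θ - η < 1 / (1 - b) * (θ * (1 - b) - δ) := by
      have e : 1 / (1 - b) * (θ * (1 - b) - δ) = θ - δ / (1 - b) := by field_simp
      have h1 : δ / (1 - b) ≤ η / 2 := by
        rw [div_le_iff₀ hs]
        linarith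
      rw [e]
      linarith
    refine seq_up mass_mono' (C := 1) (D := 2 * C) (a := b) (γ := θ * (1 - b) - δ)
      (by norm_num) (by positivity) hb1 (by linarith) hlt ?_
    filter_upwards [hX, A δ hδ0, eventually_ge_atTop 1] with n h1 h2 hn
    have hn0 : (0 : ℝ) < n := by exact_mod_cast hn
    obtain ⟨h4, h5⟩ := kb_range hb0 hn
    obtain ⟨h6, h7⟩ := kb_div hb0 hn
    have hp : 0 < (n : ℝ) ^ (b - 1) := by positivity
    have hk : (0 : ℝ) < (kb b n : ℝ) / n := lt_of_lt_of_le hp h6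
    have hm := mass_pos hk
    rw [one_mul]
    refine (mass_mono' _ _ hp h6).trans ?_
    have h8 := h2.trans h1.2
    rw [← mul_div_assoc, le_div_iff₀ hm] at h8
    have h9 : C * (kb b n : ℝ) ≤ 2 * C * (n : ℝ) ^ b := by nlinarith
    have h12 : 0 < (n : ℝ) ^ (b + θ * (1 - b) - δ) := by positivity
    have h13 : (n : ℝ) ^ (-(θ * (1 - b) - δ)) * (n : ℝ) ^ (b + θ * (1 - b) - δ) = (n : ℝ) ^ b := by
      rw [← Real.rpow_add hn0]
      congr 1
      ring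
    have h14 : Y981.L2.mass ((kb b n : ℝ) / n) * (n : ℝ) ^ (b + θ * (1 - b) - δ) ≤
        2 * C * (n : ℝ) ^ (-(θ * (1 - b) - δ)) * (n : ℝ) ^ (b + θ * (1 - b) - δ) := by
      rw [mul_assoc (2 * C), h13]
      linarith
    exact le_of_mul_le_mul_right h14 h12

/-- **the moments are of the order given by the mass** -/
theorem moments : ∃ C δ : ℝ, 1 ≤ C ∧ 0 < δ ∧ ∀ n : ℕ, 2 ≤ n → ∀ k : ℕ, Real.log n ^ 2 ≤ k →
    (k : ℝ) ≤ δ * n →
    (k / Y981.L2.mass ((k : ℝ) / n) / C) ^ (2 * k) ≤ smom n (2 * k) ∧ smom n (2 * k) ≤ mom n k ∧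
    mom n k ≤ (C * (k / Y981.L2.mass ((k : ℝ) / n))) ^ (2 * k) := by
  obtain ⟨C1, hC1, h1⟩ := mom_le
  obtain ⟨C2, hC2, h2⟩ := smom_ge
  obtain ⟨δ, hδ, -, h3⟩ := mass_small
  refine ⟨C1 + C2, δ, by linarith, hδ, fun n hn k hk hkn => ?_⟩
  have hn0 : (0 : ℝ) < n := by exact_mod_cast (by omega : 0 < n)
  obtain ⟨hk1, -⟩ := two_n_le hn hk
  have hk0 : (0 : ℝ) < k := by exact_mod_cast hk1
  have he : (0 : ℝ) < (k : ℝ) / n := by positivity
  have hm8 := h3 _ he (by rw [div_le_iff₀ hn0]; exact hkn)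
  have hm := mass_pos he
  refine ⟨?_, smom_le (by omega) k, ?_⟩
  · refine le_trans ?_ (h2 n hn k hk hm8)
    apply pow_le_pow_left₀ (by positivity)
    apply div_le_div_of_nonneg_left (by positivity) (by linarith) (by linarith)
  · refine (h1 n hn k hk hm8).trans ?_
    apply pow_le_pow_left₀ (by positivity)
    apply mul_le_mul_of_nonneg_right (by linarith) (by positivity)

theorem root_le {x y : ℝ} {k : ℕ} (hk : 1 ≤ k) (hy : 0 ≤ y) (h0 : 0 ≤ x) (h : x ≤ y ^ (2 * k)) :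
    x ^ (1 / (2 * (k : ℝ))) ≤ y := by
  have h1 := Real.rpow_le_rpow h0 h (show 0 ≤ 1 / (2 * (k : ℝ)) by positivity)
  have h2 : (y ^ (2 * k)) ^ (1 / (2 * (k : ℝ))) = y := by
    have e : 1 / (2 * (k : ℝ)) = ((2 * k : ℕ) : ℝ)⁻¹ := by push_cast; rw [one_div]
    rw [e]
    exact Real.pow_rpow_inv_natCast hy (by omega)
  rwa [h2] at h1

theorem le_root {x y : ℝ} {k : ℕ} (hk : 1 ≤ k) (hy : 0 ≤ y) (h : y ^ (2 * k) ≤ x) :
    y ≤ x ^ (1 / (2 * (k : ℝ))) := by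
  have h1 := Real.rpow_le_rpow (by positivity) h (show 0 ≤ 1 / (2 * (k : ℝ)) by positivity)
  have h2 : (y ^ (2 * k)) ^ (1 / (2 * (k : ℝ))) = y := by
    have e : 1 / (2 * (k : ℝ)) = ((2 * k : ℕ) : ℝ)⁻¹ := by push_cast; rw [one_div]
    rw [e]
    exact Real.pow_rpow_inv_natCast hy (by omega)
  rwa [h2] at h1

/-- the range of the orders -/
theorem kb_ok {b δ : ℝ} (hb0 : 0 < b) (hb1 : b < 1) (hδ : 0 < δ) : ∀ᶠ n : ℕ in atTop,
    2 ≤ n ∧ Real.log n ^ 2 ≤ kb b n ∧ (kb b n : ℝ) ≤ δ * n := by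
  have h1 : ∀ᶠ n : ℕ in atTop, 2 / δ * (n : ℝ) ^ b ≤ (n : ℝ) ^ (1 : ℝ) := ev_pow (2 / δ) hb1
  filter_upwards [eventually_ge_atTop 2, h1, ev_log 1 0 hb0] with n hn h2 h3
  obtain ⟨h4, h5⟩ := kb_range hb0 (show 1 ≤ n by omega)
  refine ⟨hn, by linarith, ?_⟩
  rw [Real.rpow_one] at h2
  have h6 := mul_le_mul_of_nonneg_left h2 hδ.le
  have h7 : δ * (2 / δ * (n : ℝ) ^ b) = 2 * (n : ℝ) ^ b := by field_simp
  linarith

theorem sand_both {b : ℝ} (hb0 : 0 < b) (hb1 : b < 1) :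
    Sand b (fun n => (mom n (kb b n)) ^ (1 / (2 * (kb b n : ℝ)))) ∧
    Sand b (fun n => (smom n (2 * kb b n)) ^ (1 / (2 * (kb b n : ℝ)))) := by
  obtain ⟨C, δ, hC, hδ, h⟩ := moments
  have hev : ∀ᶠ n : ℕ in atTop,
      C⁻¹ * (kb b n / Y981.L2.mass ((kb b n : ℝ) / n)) ≤ (smom n (2 * kb b n)) ^ (1 / (2 * (kb b n : ℝ))) ∧
      (smom n (2 * kb b n)) ^ (1 / (2 * (kb b n : ℝ))) ≤
        (mom n (kb b n)) ^ (1 / (2 * (kb b n : ℝ))) ∧
      (mom n (kb b n)) ^ (1 / (2 * (kb b n : ℝ))) ≤ C * (kb b n / Y981.L2.mass ((kb b n : ℝ) / n)) := by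
    filter_upwards [kb_ok hb0 hb1 hδ] with n hn
    obtain ⟨hn2, h1, h2⟩ := hn
    obtain ⟨g1, g2, g3⟩ := h n hn2 _ h1 h2
    obtain ⟨hk1, -⟩ := two_n_le hn2 h1
    have hn0 : (0 : ℝ) < n := by exact_mod_cast (by omega : 0 < n)
    have hk0 : (0 : ℝ) < kb b n := by exact_mod_cast hk1
    have he : (0 : ℝ) < (kb b n : ℝ) / n := by positivity
    have hm := mass_pos he
    have g0 : 0 ≤ smom n (2 * kb b n) := le_trans (by positivity) g1
    refine ⟨?_, Real.rpow_le_rpow g0 g2 (by positivity),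
      root_le hk1 (by positivity) (g0.trans g2) g3⟩
    have g4 := le_root hk1 (by positivity) g1
    rw [inv_mul_eq_div]
    exact g4
  constructor
  · refine ⟨C⁻¹, C, by positivity, by positivity, ?_⟩
    filter_upwards [hev] with n hn
    exact ⟨hn.1.trans hn.2.1, hn.2.2⟩
  · refine ⟨C⁻¹, C, by positivity, by positivity, ?_⟩
    filter_upwards [hev] with n hn
    exact ⟨hn.1, hn.2.1.trans hn.2.2⟩

end Pool.Agent.X144.Hm

namespace Pool.Agent.X144.Hm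

open Pool.Agent.Y981.L2 Pool.Agent.Y981.L2X Pool.Agent.X144.Fi Filter Topology

/-- the correlation length is at least diffusive -/
theorem massUp_half : MassUp (1 / 2) := by
  obtain ⟨K, hK, h⟩ := mass_le
  intro η hη
  have hlt : (1 / 2 : ℝ) - η < 1 / 2 - η / 2 := by linarith
  filter_upwards [ev_small (K * (2 / η)) hlt, Ioo_mem_nhdsGT (Real.exp_pos (-1))] with e h1 h2
  obtain ⟨he0, he1⟩ := h2
  have he2 : e < 1 := he1.trans (by
    have := Real.exp_lt_exp.2 (show (-1 : ℝ) < 0 by norm_num)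
    rwa [Real.exp_zero] at this)
  have h3 := h e he0 he1.le
  have hL0 : 0 ≤ Real.log (1 / e) := Real.log_nonneg (by rw [le_div_iff₀ he0]; linarith)
  have h4 : Real.sqrt (e * Real.log (1 / e) ^ 2) = e ^ (1 / 2 : ℝ) * Real.log (1 / e) := by
    rw [Real.sqrt_mul he0.le, Real.sqrt_sq hL0, Real.sqrt_eq_rpow]
  have h5 := Real.log_le_rpow_div (show 0 ≤ 1 / e by positivity) (show 0 < η / 2 by positivity)
  have h6 : (1 / e) ^ (η / 2) = e ^ (-(η / 2)) := by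
    rw [one_div, Real.inv_rpow he0.le, Real.rpow_neg he0.le]
  rw [h6] at h5
  rw [h4] at h3
  refine h3.trans (le_trans ?_ h1)
  calc K * (e ^ (1 / 2 : ℝ) * Real.log (1 / e)) ≤ K * (e ^ (1 / 2 : ℝ) * (e ^ (-(η / 2)) / (η / 2))) := by
        apply mul_le_mul_of_nonneg_left _ hK.le
        exact mul_le_mul_of_nonneg_left h5 (by positivity)
    _ = K * (2 / η) * (e ^ (1 / 2 : ℝ) * e ^ (-(η / 2))) := by field_simp
    _ = _ := by
        rw [← Real.rpow_add he0]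
        congr 2

end Pool.Agent.X144.Hm
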