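import Pool.Agent.X144.Hm.Up

/-!
Two-sided bounds for the moments of the area by the mass.
-/

set_option autoImplicit false

namespace Pool.Agent.X144.Hm

open Pool.Agent.TH795.EP Pool.Agent.TH795.EP2 Pool.Agent.TH795.SE2 Pool.Agent.TH262.SawL Pool.Agent.Y981.L2 Pool.Agent.Y981.L2X Pool.Agent.X144.Fi H981 Finset Filter Topology

/-- the mass is small close to the critical point -/
theorem mass_small : ∃ δ : ℝ, 0 < δ ∧ δ ≤ 1 ∧ ∀ e : ℝ, 0 < e → e ≤ δ → mass e ≤ 1 / 8 := by
  obtain ⟨K, hK, hR⟩ := R_quad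
  have h1 : Tendsto (fun x : ℝ => K * (Real.log x ^ 2 / x)) atTop (𝓝 (K * 0)) := by
    apply Tendsto.const_mul
    exact (Real.isLittleO_pow_log_id_atTop (n := 2)).tendsto_div_nhds_zero
  rw [mul_zero] at h1
  obtain ⟨x, hx1, hx2⟩ := ((h1.eventually (gt_mem_nhds (show (0 : ℝ) < 1 / 16 by norm_num))).and
    (eventually_ge_atTop 2)).exists
  have hx0 : 0 < x := by linarith
  have h2 := hR (1 / x) (by positivity) (by
    apply one_div_le_one_div_of_le (by norm_num) hx2)
  rw [one_div_one_div] at h2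
  have h3 : K * (1 / x) ^ 2 * Real.log x ^ 2 = K * (Real.log x ^ 2 / x) * (1 / x) := by
    field_simp
  rw [h3] at h2
  have h4 := mul_lt_mul_of_pos_right hx1 (show 0 < 1 / x by positivity)
  have h5 : R (1 / x) < 1 / 16 * (1 / x) := lt_of_le_of_lt h2 h4
  have h6 := young (v := 1 / x) (by positivity) (by
    rw [div_le_one hx0]; linarith) (1 / 8)
  have h7 : 1 / 16 * (1 / x) < psi (1 / 8) := by linarith
  have h8 : 0 < 1 / 16 * (1 / x) := by positivity
  refine ⟨min (1 / 16 * (1 / x)) 1, lt_min h8 one_pos, min_le_right _ _, fun e he hed => ?_⟩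
  have h9 : e ≤ 1 / 16 * (1 / x) := hed.trans (min_le_left _ _)
  unfold Y981.L2.mass
  refine csSup_le ⟨0, zero_mem he.le⟩ ?_
  rintro h ⟨h0, hh⟩
  by_contra hcon
  push Not at hcon
  have := psi_mono (show (0 : ℝ) ≤ 1 / 8 by norm_num) hcon.le
  linarith

theorem two_n_le {n k : ℕ} (hn : 2 ≤ n) (hk : Real.log n ^ 2 ≤ k) :
    1 ≤ k ∧ 2 * (n : ℝ) ≤ Real.exp (2 * k) := by
  have hn2 : (2 : ℝ) ≤ n := by exact_mod_cast hn
  have hlog2 : Real.log 2 ≤ Real.log n := Real.log_le_log (by norm_num) hn2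
  have hl2 := Real.log_two_gt_d9
  have hl2' := Real.log_two_lt_d9
  have h1 : (0 : ℝ) < k := by nlinarith
  have h2 : 1 ≤ k := by
    have : 0 < k := by exact_mod_cast h1
    omega
  refine ⟨h2, ?_⟩
  have h3 : (1 : ℝ) ≤ k := by exact_mod_cast h2
  rw [← Real.log_le_iff_le_exp (by linarith), Real.log_mul (by norm_num) (by linarith)]
  nlinarith [sq_nonneg (Real.log (n : ℝ) - 1)]

/-- **Upper bound for the moments.** -/
theorem mom_le : ∃ C : ℝ, 1 ≤ C ∧ ∀ n : ℕ, 2 ≤ n → ∀ k : ℕ, Real.log n ^ 2 ≤ k →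
    mass ((k : ℝ) / n) ≤ 1 / 8 →
    mom n k ≤ (C * (k / mass ((k : ℝ) / n))) ^ (2 * k) := by
  obtain ⟨K, hK, hpw⟩ := pw_mass
  refine ⟨8 * Real.exp (5 + K), ?_, fun n hn k hk hm8 => ?_⟩
  · have := Real.one_le_exp (show 0 ≤ 5 + K by positivity)
    linarith
  obtain ⟨hk1, h2n⟩ := two_n_le hn hk
  have hn0 : (0 : ℝ) < n := by exact_mod_cast (by omega : 0 < n)
  have hn2 : (2 : ℝ) ≤ n := by exact_mod_cast hn
  have hk0 : (0 : ℝ) < k := by exact_mod_cast hk1
  have hk1' : (1 : ℝ) ≤ k := by exact_mod_cast hk1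
  have he : (0 : ℝ) < (k : ℝ) / n := by positivity
  obtain ⟨m, hm⟩ : ∃ m, m = mass ((k : ℝ) / n) := ⟨_, rfl⟩
  have hm0 : 0 < m := by rw [hm]; exact mass_pos he
  rw [← hm] at hm8 ⊢
  obtain ⟨L, hL⟩ : ∃ L : ℝ, L = k / m := ⟨_, rfl⟩
  have hL0 : 0 < L := by rw [hL]; positivity
  have hL8 : 8 ≤ L := by
    rw [hL, le_div_iff₀ hm0]
    nlinarith
  rw [← hL]
  obtain ⟨T, hT⟩ : ∃ T, T = ⌊2 * (n : ℝ) / L⌋₊ + 1 := ⟨_, rfl⟩
  have hT1 : 2 * (n : ℝ) < T * L := by
    have h1 : 2 * (n : ℝ) / L < T := by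
      rw [hT]; push_cast; exact Nat.lt_floor_add_one _
    rwa [div_lt_iff₀ hL0] at h1
  have hT2 : (T : ℝ) ≤ 2 * n := by
    have h1 : ((⌊2 * (n : ℝ) / L⌋₊ : ℕ) : ℝ) ≤ 2 * (n : ℝ) / L := Nat.floor_le (by positivity)
    have h2 : 2 * (n : ℝ) / L ≤ 2 * (n : ℝ) / 8 :=
      div_le_div_of_nonneg_left (by positivity) (by norm_num) hL8
    rw [hT]
    push_cast
    linarith
  -- levels
  have h1 : mom n k ≤ ∑ t ∈ range T, (((t : ℝ) + 1) * L) ^ (2 * k) * par n ((t * L) ^ 2) := by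
    classical
    have g1 : mom n k ≤ av n (fun f => ∑ t ∈ range T,
        (if ((t : ℝ) * L) ^ 2 ≤ area (2 * n) f then (((t : ℝ) + 1) * L) ^ (2 * k) else 0)) := by
      apply av_mono (by omega)
      intro f hf
      apply area_levels (Nat.cast_nonneg _) hL0
      have g2 := area_le (by omega) hf
      have g3 : (2 * (n : ℝ)) ^ 2 < (T * L) ^ 2 := pow_lt_pow_left₀ hT1 (by positivity) two_ne_zero
      nlinarith
    rw [av_sum (by omega) T (fun t f =>
      if ((t : ℝ) * L) ^ 2 ≤ area (2 * n) f then (((t : ℝ) + 1) * L) ^ (2 * k) else 0)] at g1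
    refine g1.trans (le_of_eq ?_)
    apply Finset.sum_congr rfl
    intro t _
    have g2 := av_ind (n := n) (by omega) ((((t : ℝ) + 1) * L) ^ (2 * k))
      (fun f => ((t : ℝ) * L) ^ 2 ≤ area (2 * n) f)
    unfold par
    unfold ln at g2
    convert g2 using 2
  refine h1.trans ?_
  have h2 : ∀ t ∈ range T, (((t : ℝ) + 1) * L) ^ (2 * k) * par n ((t * L) ^ 2) ≤
      L ^ (2 * k) * (2 * (4 ^ k * Real.exp (1 + (2 + K) * k))) := by
    intro t _
    have ht : (0 : ℝ) ≤ t := Nat.cast_nonneg t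
    have g1 := par_le (n := n) (by omega) (show 0 ≤ t * L by positivity)
    have g2 := hpw n hn (t * L) (k / n) (by positivity) he
    rw [← hm] at g2
    have g3 : m * (t * L) = t * k := by rw [hL]; field_simp
    have g4 : (n : ℝ) * ((k : ℝ) / n) = k := by field_simp
    rw [g3, g4] at g2
    have g5 : (((t : ℝ) + 1) * L) ^ (2 * k) ≤ L ^ (2 * k) * (4 ^ k * Real.exp (t * k / 2)) := by
      rw [mul_pow, mul_comm]
      apply mul_le_mul_of_nonneg_left _ (by positivity)
      rw [pow_mul]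
      have g6 := pow_le_pow_left₀ (by positivity) (sq_exp t) k
      refine g6.trans (le_of_eq ?_)
      rw [mul_pow, ← Real.exp_nat_mul]
      congr 2
      ring
    have g7 : par n ((t * L) ^ 2) ≤ 2 * Real.exp (-(t * k) + 1 + (2 + K) * k) := by
      refine g1.trans (mul_le_mul_of_nonneg_left ?_ (by norm_num))
      refine g2.trans (Real.exp_le_exp.2 ?_)
      have g8 := mul_le_mul_of_nonneg_left hk hK
      linarith
    have g9 : 0 ≤ par n ((t * L) ^ 2) := by
      unfold par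
      positivity
    calc (((t : ℝ) + 1) * L) ^ (2 * k) * par n ((t * L) ^ 2)
        ≤ (L ^ (2 * k) * (4 ^ k * Real.exp (t * k / 2))) *
          (2 * Real.exp (-(t * k) + 1 + (2 + K) * k)) := by
          apply mul_le_mul g5 g7 g9 (by positivity)
      _ = L ^ (2 * k) * (2 * (4 ^ k * (Real.exp (t * k / 2) *
          Real.exp (-(t * k) + 1 + (2 + K) * k)))) := by ring
      _ ≤ _ := by
          rw [← Real.exp_add]
          apply mul_le_mul_of_nonneg_left _ (by positivity)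
          apply mul_le_mul_of_nonneg_left _ (by norm_num)
          apply mul_le_mul_of_nonneg_left _ (by positivity)
          apply Real.exp_le_exp.2
          have : 0 ≤ (t : ℝ) * k := by positivity
          linarith
  have h3 := Finset.sum_le_sum h2
  rw [Finset.sum_const, Finset.card_range, nsmul_eq_mul] at h3
  refine h3.trans ?_
  have h4 : (2 : ℝ) ≤ 2 ^ k := by
    calc (2 : ℝ) = 2 ^ 1 := (pow_one _).symm
      _ ≤ 2 ^ k := pow_le_pow_right₀ (by norm_num) hk1
  calc (T : ℝ) * (L ^ (2 * k) * (2 * (4 ^ k * Real.exp (1 + (2 + K) * k))))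
      ≤ Real.exp (2 * k) * (L ^ (2 * k) * (2 ^ k * (4 ^ k * Real.exp (1 + (2 + K) * k)))) := by
        apply mul_le_mul (hT2.trans h2n) _ (by positivity) (by positivity)
        apply mul_le_mul_of_nonneg_left _ (by positivity)
        exact mul_le_mul_of_nonneg_right h4 (by positivity)
    _ = L ^ (2 * k) * (8 ^ k * Real.exp (2 * k + (1 + (2 + K) * k))) := by
        rw [Real.exp_add (2 * (k : ℝ)) (1 + (2 + K) * k), show (8 : ℝ) = 2 * 4 by norm_num, mul_pow]
        ring
    _ ≤ L ^ (2 * k) * (8 ^ k * Real.exp ((5 + K) * k)) := by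
        apply mul_le_mul_of_nonneg_left _ (by positivity)
        apply mul_le_mul_of_nonneg_left _ (by positivity)
        apply Real.exp_le_exp.2
        linarith
    _ = L ^ (2 * k) * (8 * Real.exp (5 + K)) ^ k := by
        rw [mul_pow, ← Real.exp_nat_mul]
        ring_nf
    _ ≤ L ^ (2 * k) * ((8 * Real.exp (5 + K)) ^ 2) ^ k := by
        apply mul_le_mul_of_nonneg_left _ (by positivity)
        apply pow_le_pow_left₀ (by positivity)
        have h5 := Real.one_le_exp (show 0 ≤ 5 + K by positivity)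
        nlinarith
    _ = _ := by
        rw [mul_pow _ L, pow_mul, pow_mul]
        ring

/-- **Lower bound for the moments.** -/
theorem smom_ge : ∃ C : ℝ, 1 ≤ C ∧ ∀ n : ℕ, 2 ≤ n → ∀ k : ℕ, Real.log n ^ 2 ≤ k →
    mass ((k : ℝ) / n) ≤ 1 / 8 →
    (k / mass ((k : ℝ) / n) / C) ^ (2 * k) ≤ smom n (2 * k) := by
  obtain ⟨K, hK, hlow⟩ := side_lower
  obtain ⟨K', hK', hln⟩ := ln_le
  refine ⟨8 * Real.exp (2 + K), ?_, fun n hn k hk hm8 => ?_⟩
  · have := Real.one_le_exp (show 0 ≤ 2 + K by positivity)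
    linarith
  obtain ⟨hk1, h2n⟩ := two_n_le hn hk
  have hn0 : (0 : ℝ) < n := by exact_mod_cast (by omega : 0 < n)
  have hn2 : (2 : ℝ) ≤ n := by exact_mod_cast hn
  have hk0 : (0 : ℝ) < k := by exact_mod_cast hk1
  have hk1' : (1 : ℝ) ≤ k := by exact_mod_cast hk1
  have he : (0 : ℝ) < (k : ℝ) / n := by positivity
  have hme := self_le_mass he.le
  obtain ⟨m, hm⟩ : ∃ m, m = mass ((k : ℝ) / n) := ⟨_, rfl⟩
  have hm0 : 0 < m := by rw [hm]; exact mass_pos he
  rw [← hm] at hm8 hme ⊢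
  obtain ⟨L, hL⟩ : ∃ L : ℝ, L = k / m := ⟨_, rfl⟩
  have hL0 : 0 < L := by rw [hL]; positivity
  have hL8 : 8 ≤ L := by
    rw [hL, le_div_iff₀ hm0]
    nlinarith
  have hLn : L ≤ n := by
    rw [hL, div_le_iff₀ hm0]
    rw [div_le_iff₀ hn0] at hme
    linarith
  rw [← hL]
  obtain ⟨s, hs⟩ : ∃ s, s = ⌊L / 4⌋₊ := ⟨_, rfl⟩
  have hs1 : (s : ℝ) ≤ L / 4 := by rw [hs]; exact Nat.floor_le (by positivity)
  have hs2 : L / 4 < s + 1 := by rw [hs]; exact Nat.lt_floor_add_one _
  have hs3 : (1 : ℝ) < s + 1 - 0 := by linarith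
  have hs4 : 1 ≤ s := by
    have : (0 : ℝ) < s := by linarith
    have : 0 < s := by exact_mod_cast this
    omega
  have hs5 : 2 * s < n := by
    have : 2 * (s : ℝ) < n := by linarith
    exact_mod_cast this
  have hs6 : L / 8 ≤ s := by linarith
  have h1 := hlow n hn s hs4 hs5
  have h2 : R (2 * s / n) ≤ k / n := by
    apply R_xi he (by positivity)
    rw [← hm]
    have h3 : 2 * (s : ℝ) * m ≤ k := by
      have h4 : L * m = k := by rw [hL]; field_simp
      nlinarith
    calc 2 * (s : ℝ) / n * m = (2 * (s : ℝ) * m) / n := by ring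
      _ ≤ _ := div_le_div_of_nonneg_right h3 hn0.le
  have h3 : Real.exp (-((2 + K) * k)) * ln n ≤ sn n s := by
    refine le_trans ?_ h1
    apply mul_le_mul_of_nonneg_right _ (Nat.cast_nonneg _)
    apply Real.exp_le_exp.2
    have h4 := mul_le_mul_of_nonneg_left h2 hn0.le
    have h5 : (n : ℝ) * ((k : ℝ) / n) = k := by field_simp
    have h6 := mul_le_mul_of_nonneg_left hk hK
    linarith
  have hl0 := (hln n hn).1
  have h4 : (s : ℝ) ^ (2 * k) * Real.exp (-((2 + K) * k)) ≤ smom n (2 * k) := by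
    classical
    have g1 : av n (fun f => if s ≤ side (2 * n) f then (s : ℝ) ^ (2 * k) else 0) ≤
        smom n (2 * k) := by
      apply av_mono (by omega)
      intro f _
      split_ifs with h
      · apply pow_le_pow_left₀ (by positivity)
        exact_mod_cast h
      · positivity
    have g2 := av_ind (n := n) (by omega) ((s : ℝ) ^ (2 * k)) (fun f => s ≤ side (2 * n) f)
    refine le_trans ?_ g1
    have g3 : Real.exp (-((2 + K) * k)) ≤ (sn n s : ℝ) / ln n := by
      rw [le_div_iff₀ hl0]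
      exact h3
    have g4 := mul_le_mul_of_nonneg_left g3 (show 0 ≤ (s : ℝ) ^ (2 * k) by positivity)
    refine g4.trans (le_of_eq ?_)
    unfold sn
    rw [← g2]
    congr 1
    funext f
    by_cases h : s ≤ side (2 * n) f
    · simp only [if_pos h]
    · simp only [if_neg h]
  refine le_trans ?_ h4
  have h5 : (L / 8) ^ (2 * k) ≤ (s : ℝ) ^ (2 * k) := pow_le_pow_left₀ (by positivity) hs6 _
  calc (L / (8 * Real.exp (2 + K))) ^ (2 * k)
      = (L / 8) ^ (2 * k) * (Real.exp (-(2 + K))) ^ (2 * k) := by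
        rw [← mul_pow, Real.exp_neg, div_mul_eq_div_div, div_eq_mul_inv (L / 8)]
    _ ≤ (L / 8) ^ (2 * k) * Real.exp (-((2 + K) * k)) := by
        apply mul_le_mul_of_nonneg_left _ (by positivity)
        rw [← Real.exp_nat_mul]
        apply Real.exp_le_exp.2
        push_cast
        have : 0 ≤ (2 + K) * k := by positivity
        linarith
    _ ≤ _ := mul_le_mul_of_nonneg_right h5 (Real.exp_pos _).le

end Pool.Agent.X144.Hm
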