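import Pool.Agent.X144.Fi.Mean

/-!
The largest square enclosed by a self-avoiding polygon: lower bounds of the law.
-/

set_option autoImplicit false

namespace Pool.Agent.X144.Hm

open Pool.Agent.TH795.EP Pool.Agent.TH795.EP2 Pool.Agent.TH795.SE2 Pool.Agent.TH262.SawL Pool.Agent.Y981.L2 Pool.Agent.Y981.L2X Pool.Agent.X144.Fi H981 Finset Filter Topology

/-- the loop encloses a square of `k × k` cells -/
def HasSq (m : ℕ) (f : ZMod m → ℤ × ℤ) (k : ℕ) : Prop :=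
  ∃ a0 b0 : ℤ, ∀ a b : ℤ, 0 ≤ a → a < k → 0 ≤ b → b < k → Encl m f (a0 + a, b0 + b)

/-- the side of the largest square of cells enclosed by the loop -/
noncomputable def side (m : ℕ) (f : ZMod m → ℤ × ℤ) : ℕ := sSup {k : ℕ | HasSq m f k}

theorem sq_le_area {n : ℕ} (hn : 1 ≤ n) {f : ZMod (2 * n) → ℤ × ℤ} (hf : IsLoop (2 * n) f) {k : ℕ}
    (h : HasSq (2 * n) f k) : k ^ 2 ≤ area (2 * n) f := by
  have : NeZero (2 * n) := ⟨by omega⟩
  obtain ⟨a0, b0, h⟩ := h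
  exact area_ge hf.2.2 h

theorem side_bdd {n : ℕ} (hn : 1 ≤ n) {f : ZMod (2 * n) → ℤ × ℤ} (hf : IsLoop (2 * n) f) :
    BddAbove {k : ℕ | HasSq (2 * n) f k} := by
  refine ⟨area (2 * n) f, fun k hk => ?_⟩
  exact (Nat.le_self_pow two_ne_zero k).trans (sq_le_area hn hf hk)

theorem side_sq_le {n : ℕ} (hn : 1 ≤ n) {f : ZMod (2 * n) → ℤ × ℤ} (hf : IsLoop (2 * n) f) :
    side (2 * n) f ^ 2 ≤ area (2 * n) f := by
  apply sq_le_area hn hf
  exact Nat.sSup_mem (s := {k : ℕ | HasSq (2 * n) f k})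
    ⟨0, 0, 0, fun a b h1 h2 => absurd h2 (by push_cast; omega)⟩ (side_bdd hn hf)

theorem le_side {n : ℕ} (hn : 1 ≤ n) {f : ZMod (2 * n) → ℤ × ℤ} (hf : IsLoop (2 * n) f) {k : ℕ}
    (h : HasSq (2 * n) f k) : k ≤ side (2 * n) f := le_csSup (side_bdd hn hf) h

theorem cs_sq {k M : ℕ} {V : List St} (hM : M = V.length + 1) (hV : Cs' k V)
    (hl : 1 ≤ V.length) :
    IsLoop M (fun i : ZMod M => path V i.val) ∧
    HasSq M (fun i : ZMod M => path V i.val) k := by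
  obtain ⟨hs, hadj, a0, b0, -, hodd⟩ := hV
  have : NeZero M := ⟨by omega⟩
  have hloop := loop_close hM hl hs hadj
  refine ⟨hloop, a0, b0, fun a b ha0 ha1 hb0 hb1 => ?_⟩
  unfold Encl
  rw [card_above' hM]
  exact hodd a b ha0 ha1 hb0 hb1

/-- the number of loops that enclose a square of side `k` -/
noncomputable def sn (n : ℕ) (k : ℕ) : ℕ :=
  {f : ZMod (2 * n) → ℤ × ℤ | IsLoop (2 * n) f ∧ k ≤ side (2 * n) f}.ncard

theorem cs_le_sn {n : ℕ} (hn : 1 ≤ n) (k : ℕ) : cs' k (2 * n - 1) ≤ sn n k := by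
  classical
  have hfin := loops_finite hn
  have hfin2 : {f : ZMod (2 * n) → ℤ × ℤ | IsLoop (2 * n) f ∧ k ≤ side (2 * n) f}.Finite :=
    hfin.subset (fun f hf => hf.1)
  unfold cs' sn
  have hinj : ((fs (Cs' k) (2 * n - 1)).image
      (fun V : List St => fun i : ZMod (2 * n) => path V i.val)).card =
      (fs (Cs' k) (2 * n - 1)).card := by
    apply Finset.card_image_of_injOn
    intro V hV V' hV' he
    rw [Finset.mem_coe, mem_fs] at hV hV'
    apply word_ext (by omega)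
    intro j hj
    have h1 := congrFun he (j : ZMod (2 * n))
    simp only at h1
    rwa [ZMod.val_cast_of_lt (by omega)] at h1
  rw [← hinj, ← Set.ncard_coe_finset]
  apply Set.ncard_le_ncard _ hfin2
  intro f hf
  rw [Finset.mem_coe, Finset.mem_image] at hf
  obtain ⟨V, hV, rfl⟩ := hf
  rw [mem_fs] at hV
  obtain ⟨hV1, hV2⟩ := hV
  obtain ⟨h1, h2⟩ := cs_sq (M := 2 * n) (by omega) hV1 (by omega)
  exact ⟨h1, le_side hn h1 h2⟩

/-- **lower bound for the law of the largest enclosed square** -/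
theorem side_lower : ∃ K : ℝ, 0 ≤ K ∧ ∀ n : ℕ, 2 ≤ n → ∀ k : ℕ, 1 ≤ k → 2 * k < n →
    Real.exp (-(2 * (n * R (2 * k / n)) + K * Real.log n ^ 2)) * ln n ≤ sn n k := by
  obtain ⟨K1, hK1, hfour⟩ := four_bound
  obtain ⟨K2, hK2, hla⟩ := a_le_la
  obtain ⟨K3, hK3, hsh⟩ := shorten
  obtain ⟨K4, hK4, hldp⟩ := ldp_words
  obtain ⟨K5, hK5, hln⟩ := ln_le
  refine ⟨16 * (K1 + 4 * K2 + 4 * K3) + 64 * K4 + 2 * K5, by positivity, ?_⟩
  intro n hn k hk hkn
  obtain ⟨h, hh1, hh2, hh3⟩ : ∃ h : ℕ, n ≤ 2 * h ∧ 2 * h < n + 4 ∧ (h + k) % 2 = 0 := by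
    rcases Nat.even_or_odd ((n + 1) / 2 + k) with he | he
    · rw [Nat.even_iff] at he
      exact ⟨(n + 1) / 2, by omega, by omega, he⟩
    · rw [Nat.odd_iff] at he
      exact ⟨(n + 1) / 2 + 1, by omega, by omega, by omega⟩
  have hh4 : k < h := by omega
  have hN2 : 2 ≤ 2 * n := by omega
  have hmu := mu_pos
  have hmu1 := one_le_mu
  have hn0 : (0 : ℝ) < n := by exact_mod_cast (by omega : 0 < n)
  have hk0 : (0 : ℝ) < k := by exact_mod_cast hk
  have hlog := log_pos' hn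
  have hne : (((k : ℤ), 0) : ℤ × ℤ) ≠ (0, 0) := by
    intro h
    have := (Prod.mk.inj h).1
    omega
  -- four pieces
  have s1 := hfour n (by omega) k hk (h - 2) (by omega)
  have s2 := hla (2 * n) hN2 (h - 2) (by omega) k (by omega)
  have s3 := hsh (2 * n) hN2 h (by omega) k 0 hne (by
    rw [abs_zero, abs_of_nonneg (by omega : (0 : ℤ) ≤ k)]; omega)
  have hq2 := q_pos (2 * n) K2
  have hq3 := q_pos (2 * n) K3
  have hq1 := q_pos (2 * n) K1
  have s4 : (a h k 0 : ℝ) ≤ q (2 * n) (K2 + K3) * la (h - 2) k 0 := by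
    calc (a h k 0 : ℝ) ≤ q (2 * n) K3 * (q (2 * n) K2 * la (h - 2) k 0) :=
          s3.trans (mul_le_mul_of_nonneg_left s2 hq3.le)
      _ = (q (2 * n) K2 * q (2 * n) K3) * la (h - 2) k 0 := by ring
      _ = _ := by rw [q_mul]
  -- large deviations
  have hlead : mu ^ h * Real.exp (-(h * R ((k : ℝ) / h) + K4 * Real.log h ^ 2)) ≤ a h k 0 := by
    have h2 : 2 ≤ h := by omega
    have g1 := hldp h h2 k 0 hne (by omega) (by
      rw [abs_zero, abs_of_nonneg (by omega : (0 : ℤ) ≤ k)]; omega)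
    have g2 := one_le_a (n := h) (x := k) (y := 0) hne (by omega) (by
      rw [abs_zero, abs_of_nonneg (by omega : (0 : ℤ) ≤ k)]; omega)
    have g3 : (0 : ℝ) < a h k 0 := by exact_mod_cast g2
    have g4 := c_pos h
    have g5 := (abs_le.1 g1).1
    have g6 : Real.exp (-(h * R ((k : ℝ) / h) + K4 * Real.log h ^ 2)) ≤ (a h k 0 : ℝ) / c h := by
      rw [← Real.le_log_iff_exp_le (div_pos g3 g4)]
      unfold R
      push_cast at g5
      rw [zero_div] at g5
      linarith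
    rw [le_div_iff₀ g4] at g6
    have g7 : mu ^ h ≤ c h := by rw [c_eq]; exact mu_pow_le h
    calc mu ^ h * Real.exp (-(h * R ((k : ℝ) / h) + K4 * Real.log h ^ 2))
        ≤ c h * Real.exp (-(h * R ((k : ℝ) / h) + K4 * Real.log h ^ 2)) :=
          mul_le_mul_of_nonneg_right g7 (Real.exp_pos _).le
      _ ≤ _ := by linarith
  -- the exponent
  have hh0 : (0 : ℝ) < h := by exact_mod_cast (by omega : 0 < h)
  have hhn : (n : ℝ) ≤ 2 * h := by exact_mod_cast hh1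
  have hkn' : 2 * (k : ℝ) / n ≤ 1 := by
    rw [div_le_one hn0]
    exact_mod_cast hkn.le
  have hR : h * R ((k : ℝ) / h) ≤ (n : ℝ) / 2 * R (2 * k / n) := by
    have g1 := R_smul (v := 2 * (k : ℝ) / n) (t := (n : ℝ) / (2 * h)) (by positivity) hkn'
      (by positivity) (by rw [div_le_one (by positivity)]; exact hhn)
    have e1 : (n : ℝ) / (2 * h) * (2 * k / n) = k / h := by field_simp
    rw [e1] at g1
    calc h * R ((k : ℝ) / h) ≤ h * ((n : ℝ) / (2 * h) * R (2 * k / n)) :=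
          mul_le_mul_of_nonneg_left g1 hh0.le
      _ = _ := by field_simp
  have hlogh : Real.log h ≤ 2 * Real.log n := by
    have : (h : ℝ) ≤ (2 * n : ℕ) := by exact_mod_cast (by omega : h ≤ 2 * n)
    exact (Real.log_le_log hh0 this).trans (log_two_mul hn)
  have hlogh0 : 0 ≤ Real.log h := (log_pos' (show 2 ≤ h by omega)).le
  have hlogh4 : Real.log h ^ 2 ≤ 16 * Real.log n ^ 2 := by
    calc Real.log h ^ 2 ≤ (2 * Real.log n) ^ 2 := pow_le_pow_left₀ hlogh0 hlogh 2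
      _ ≤ _ := by nlinarith [sq_nonneg (Real.log (n : ℝ))]
  obtain ⟨E, hE⟩ : ∃ E : ℝ, E = 2 * (n * R (2 * k / n)) + 64 * K4 * Real.log n ^ 2 := ⟨_, rfl⟩
  have t1 : mu ^ (4 * h) * Real.exp (-E) ≤ (a h k 0 : ℝ) ^ 4 := by
    have g1 := pow_le_pow_left₀ (by positivity) hlead 4
    refine le_trans ?_ g1
    rw [mul_pow, ← pow_mul, mul_comm h 4, ← Real.exp_nat_mul]
    apply mul_le_mul_of_nonneg_left _ (pow_pos hmu _).le
    apply Real.exp_le_exp.2
    rw [hE]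
    push_cast
    have g2 := mul_le_mul_of_nonneg_left hlogh4 hK4
    linarith
  have t2 : (a h k 0 : ℝ) ^ 4 * mu ^ (2 * n - 4 * (h - 2)) ≤
      q (2 * n) (K1 + 4 * K2 + 4 * K3) * cs' k (2 * n - 1) := by
    have g1 := pow_le_pow_left₀ (Nat.cast_nonneg _) s4 4
    have g2 : q (2 * n) (K2 + K3) ^ 4 = q (2 * n) (4 * (K2 + K3)) := by
      unfold q
      rw [← Real.exp_nat_mul]
      congr 1
      push_cast
      ring
    calc (a h k 0 : ℝ) ^ 4 * mu ^ (2 * n - 4 * (h - 2))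
        ≤ (q (2 * n) (K2 + K3) * la (h - 2) k 0) ^ 4 * mu ^ (2 * n - 4 * (h - 2)) :=
          mul_le_mul_of_nonneg_right g1 (pow_pos hmu _).le
      _ = q (2 * n) (4 * (K2 + K3)) * ((la (h - 2) k 0 : ℝ) ^ 4 * mu ^ (2 * n - 4 * (h - 2))) := by
          rw [mul_pow, g2]; ring
      _ ≤ q (2 * n) (4 * (K2 + K3)) * (q (2 * n) K1 * cs' k (2 * n - 1)) :=
          mul_le_mul_of_nonneg_left s1 (q_pos _ _).le
      _ = (q (2 * n) (4 * (K2 + K3)) * q (2 * n) K1) * cs' k (2 * n - 1) := by ring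
      _ = _ := by rw [q_mul]; congr 2; ring
  have t3 : mu ^ (2 * n) * Real.exp (-E) ≤
      q (2 * n) (K1 + 4 * K2 + 4 * K3) * cs' k (2 * n - 1) := by
    refine le_trans ?_ t2
    calc mu ^ (2 * n) * Real.exp (-E) ≤ mu ^ (4 * h + (2 * n - 4 * (h - 2))) * Real.exp (-E) := by
          apply mul_le_mul_of_nonneg_right _ (Real.exp_pos _).le
          exact pow_le_pow_right₀ hmu1 (by omega)
      _ = (mu ^ (4 * h) * Real.exp (-E)) * mu ^ (2 * n - 4 * (h - 2)) := by rw [pow_add]; ring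
      _ ≤ _ := mul_le_mul_of_nonneg_right t1 (pow_pos hmu _).le
  have t4 : (cs' k (2 * n - 1) : ℝ) ≤ sn n k := by exact_mod_cast cs_le_sn (by omega) k
  obtain ⟨l0, l1⟩ := hln n hn
  have q1 : q (2 * n) (K1 + 4 * K2 + 4 * K3) ≤ q4 n (16 * (K1 + 4 * K2 + 4 * K3)) := by
    unfold q q4
    apply Real.exp_le_exp.2
    have g1 := pow_le_pow_left₀ (log_pos' hN2).le (log_two_mul hn) 2
    have g2 : Real.log (n : ℝ) ^ 2 ≤ 2 * Real.log n ^ 2 := (pow_le_four hn).1
    have g3 : Real.log ((2 * n : ℕ) : ℝ) ^ 2 ≤ 16 * Real.log n ^ 2 := by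
      refine g1.trans ?_
      calc (2 * Real.log (n : ℝ)) ^ 2 = 4 * Real.log n ^ 2 := by ring
        _ ≤ _ := by nlinarith [sq_nonneg (Real.log (n : ℝ))]
    have g4 := mul_le_mul_of_nonneg_left g3 (by positivity : 0 ≤ K1 + 4 * K2 + 4 * K3)
    linarith
  have q2 : q n K5 ≤ q4 n (2 * K5) := q_le_q4 hn hK5
  have hQ1 := q4_pos n (16 * (K1 + 4 * K2 + 4 * K3))
  have hX : Real.exp (-(2 * (n * R (2 * k / n)) +
      (16 * (K1 + 4 * K2 + 4 * K3) + 64 * K4 + 2 * K5) * Real.log n ^ 2)) =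
      Real.exp (-E) * Real.exp (-((16 * (K1 + 4 * K2 + 4 * K3)) * Real.log n ^ 2)) *
      Real.exp (-(2 * K5 * Real.log n ^ 2)) := by
    rw [hE, ← Real.exp_add, ← Real.exp_add]
    congr 1
    ring
  rw [hX]
  have c1 : Real.exp (-(2 * K5 * Real.log n ^ 2)) * (ln n : ℝ) ≤ mu ^ (2 * n) := by
    calc Real.exp (-(2 * K5 * Real.log n ^ 2)) * (ln n : ℝ)
        ≤ Real.exp (-(2 * K5 * Real.log n ^ 2)) * (mu ^ (2 * n) * q4 n (2 * K5)) := by
          apply mul_le_mul_of_nonneg_left _ (Real.exp_pos _).le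
          exact l1.trans (mul_le_mul_of_nonneg_left q2 (pow_pos hmu _).le)
      _ = (Real.exp (-(2 * K5 * Real.log n ^ 2)) * q4 n (2 * K5)) * mu ^ (2 * n) := by ring
      _ = _ := by
          unfold q4
          rw [← Real.exp_add, neg_add_cancel, Real.exp_zero, one_mul]
  have c2 : Real.exp (-((16 * (K1 + 4 * K2 + 4 * K3)) * Real.log n ^ 2)) *
      (mu ^ (2 * n) * Real.exp (-E)) ≤ cs' k (2 * n - 1) := by
    calc Real.exp (-((16 * (K1 + 4 * K2 + 4 * K3)) * Real.log n ^ 2)) *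
          (mu ^ (2 * n) * Real.exp (-E))
        ≤ Real.exp (-((16 * (K1 + 4 * K2 + 4 * K3)) * Real.log n ^ 2)) *
          (q4 n (16 * (K1 + 4 * K2 + 4 * K3)) * cs' k (2 * n - 1)) := by
          apply mul_le_mul_of_nonneg_left _ (Real.exp_pos _).le
          exact t3.trans (mul_le_mul_of_nonneg_right q1 (Nat.cast_nonneg _))
      _ = (Real.exp (-((16 * (K1 + 4 * K2 + 4 * K3)) * Real.log n ^ 2)) *
          q4 n (16 * (K1 + 4 * K2 + 4 * K3))) * cs' k (2 * n - 1) := by ring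
      _ = _ := by
          unfold q4
          rw [← Real.exp_add, neg_add_cancel, Real.exp_zero, one_mul]
  calc Real.exp (-E) * Real.exp (-((16 * (K1 + 4 * K2 + 4 * K3)) * Real.log n ^ 2)) *
        Real.exp (-(2 * K5 * Real.log n ^ 2)) * (ln n : ℝ)
      = (Real.exp (-E) * Real.exp (-((16 * (K1 + 4 * K2 + 4 * K3)) * Real.log n ^ 2))) *
        (Real.exp (-(2 * K5 * Real.log n ^ 2)) * (ln n : ℝ)) := by ring
    _ ≤ (Real.exp (-E) * Real.exp (-((16 * (K1 + 4 * K2 + 4 * K3)) * Real.log n ^ 2))) *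
        mu ^ (2 * n) := mul_le_mul_of_nonneg_left c1 (by positivity)
    _ = Real.exp (-((16 * (K1 + 4 * K2 + 4 * K3)) * Real.log n ^ 2)) *
        (mu ^ (2 * n) * Real.exp (-E)) := by ring
    _ ≤ _ := c2.trans t4

end Pool.Agent.X144.Hm
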