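import Pool.Agent.X144.Hm.Sq

/-!
Upper tail of the area by the mass, and the moments.
-/

set_option autoImplicit false

namespace Pool.Agent.X144.Hm

open Pool.Agent.TH795.EP Pool.Agent.TH795.EP2 Pool.Agent.TH795.SE2 Pool.Agent.TH262.SawL Pool.Agent.Y981.L2 Pool.Agent.Y981.L2X Pool.Agent.X144.Fi H981 Finset Filter Topology

theorem pw_le_one {n : ℕ} (hn : 1 ≤ n) (r : ℝ) : pw n r ≤ 1 := by
  unfold pw
  apply div_le_one_of_le₀ _ (Nat.cast_nonneg _)
  have h1 : {f : ZMod (2 * n) → ℤ × ℤ | IsLoop (2 * n) f ∧ r ≤ width (2 * n) f}.ncard ≤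
      {f : ZMod (2 * n) → ℤ × ℤ | IsLoop (2 * n) f}.ncard :=
    Set.ncard_le_ncard (fun f hf => hf.1) (loops_finite hn)
  exact_mod_cast h1

theorem pw_eq_zero {n : ℕ} (hn : 1 ≤ n) {r : ℝ} (hr : 2 * (n : ℝ) < r) : pw n r = 0 := by
  unfold pw
  have h1 : {f : ZMod (2 * n) → ℤ × ℤ | IsLoop (2 * n) f ∧ r ≤ width (2 * n) f} = ∅ := by
    ext f
    simp only [Set.mem_ofPred_eq, Set.mem_empty_iff_false, iff_false]
    rintro ⟨h1, h2⟩
    have h3 : (width (2 * n) f : ℝ) ≤ 2 * n := by exact_mod_cast width_le hn h1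
    linarith
  rw [h1, Set.ncard_empty]
  simp

theorem pw_mass : ∃ K : ℝ, 0 ≤ K ∧ ∀ n : ℕ, 2 ≤ n → ∀ r e : ℝ, 0 ≤ r → 0 < e →
    pw n r ≤ Real.exp (-(mass e * r) + 2 * mass e + 2 * (n * e) + K * Real.log n ^ 2) := by
  obtain ⟨K, hK, hldp⟩ := pw_ldp
  refine ⟨K, hK, fun n hn r e hr he => ?_⟩
  have hn0 : (0 : ℝ) < n := by exact_mod_cast (by omega : 0 < n)
  have hn2 : (2 : ℝ) ≤ n := by exact_mod_cast hn
  have hm := mass_pos he
  have hL : 0 ≤ K * Real.log (n : ℝ) ^ 2 := by positivity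
  have key : ∀ k : ℕ, 1 ≤ k → k < n →
      pw n k ≤ Real.exp (-(2 * (mass e * k)) + 2 * (n * e) + K * Real.log n ^ 2) := by
    intro k hk hkn
    refine (hldp n hn k hk hkn).2.trans (Real.exp_le_exp.2 ?_)
    have h1 : (k : ℝ) / n ≤ 1 := by
      rw [div_le_one hn0]; exact_mod_cast hkn.le
    have h2 := young (v := (k : ℝ) / n) (by positivity) h1 (mass e)
    have h3 := psi_mass he
    have h4 : mass e * (k / n) - e ≤ R ((k : ℝ) / n) := by linarith
    have h5 := mul_le_mul_of_nonneg_left h4 hn0.le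
    have h6 : (n : ℝ) * (mass e * (k / n) - e) = mass e * k - n * e := by field_simp
    linarith
  rcases lt_or_ge (2 * (n : ℝ)) r with h | h
  · rw [pw_eq_zero (by omega) h]
    exact (Real.exp_pos _).le
  · obtain ⟨k, hk⟩ : ∃ k, k = ⌈r⌉₊ := ⟨_, rfl⟩
    have hk1 : r ≤ k := by rw [hk]; exact Nat.le_ceil _
    have hk2 : (k : ℝ) < r + 1 := by rw [hk]; exact Nat.ceil_lt_add_one hr
    have hne : 0 < (n : ℝ) * e := by positivity
    rcases Nat.eq_zero_or_pos k with hk0 | hk0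
    · have h1 : r = 0 := by
        rw [hk0] at hk1
        push_cast at hk1
        linarith
      refine (pw_le_one (by omega) r).trans ?_
      rw [h1]
      apply Real.one_le_exp
      linarith
    · rcases Nat.lt_or_ge k n with hkn | hkn
      · rw [pw_ceil, ← hk]
        refine (key k hk0 hkn).trans (Real.exp_le_exp.2 ?_)
        have h1 := mul_le_mul_of_nonneg_left hk1 hm.le
        have h2 : 0 ≤ mass e * k := by positivity
        linarith
      · have hkn' : (n : ℝ) ≤ k := by exact_mod_cast hkn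
        have hc : (((n - 1 : ℕ) : ℕ) : ℝ) = n - 1 := by
          rw [Nat.cast_sub (by omega)]
          simp
        have h1 : pw n r ≤ pw n ((n - 1 : ℕ) : ℝ) := by
          apply pw_anti (by omega)
          rw [hc]
          linarith
        refine h1.trans ((key (n - 1) (by omega) (by omega)).trans (Real.exp_le_exp.2 ?_))
        rw [hc]
        have h2 := mul_le_mul_of_nonneg_left h hm.le
        linarith

/-- the average over the loops -/
noncomputable def av (n : ℕ) (g : (ZMod (2 * n) → ℤ × ℤ) → ℝ) : ℝ :=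
  (∑ᶠ f ∈ {f : ZMod (2 * n) → ℤ × ℤ | IsLoop (2 * n) f}, g f) /
    ({f : ZMod (2 * n) → ℤ × ℤ | IsLoop (2 * n) f}.ncard : ℝ)

theorem av_eq {n : ℕ} (hn : 1 ≤ n) (g : (ZMod (2 * n) → ℤ × ℤ) → ℝ) :
    av n g = (∑ f ∈ (loops_finite hn).toFinset, g f) / ln n := by
  unfold av ln
  congr 1
  rw [finsum_mem_eq_finite_toFinset_sum _ (loops_finite hn)]

theorem av_mono {n : ℕ} (hn : 1 ≤ n) {g g' : (ZMod (2 * n) → ℤ × ℤ) → ℝ}
    (h : ∀ f, IsLoop (2 * n) f → g f ≤ g' f) : av n g ≤ av n g' := by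
  rw [av_eq hn, av_eq hn]
  apply div_le_div_of_nonneg_right _ (Nat.cast_nonneg _)
  apply Finset.sum_le_sum
  intro f hf
  rw [Set.Finite.mem_toFinset] at hf
  exact h f hf

theorem av_sum {n : ℕ} (hn : 1 ≤ n) (T : ℕ) (g : ℕ → (ZMod (2 * n) → ℤ × ℤ) → ℝ) :
    av n (fun f => ∑ t ∈ range T, g t f) = ∑ t ∈ range T, av n (g t) := by
  rw [av_eq hn, Finset.sum_comm, Finset.sum_div]
  apply Finset.sum_congr rfl
  intro t _
  rw [av_eq hn]

open Classical in
theorem av_ind {n : ℕ} (hn : 1 ≤ n) (c : ℝ) (P : (ZMod (2 * n) → ℤ × ℤ) → Prop) :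
    av n (fun f => if P f then c else 0) =
      c * (({f : ZMod (2 * n) → ℤ × ℤ | IsLoop (2 * n) f ∧ P f}.ncard : ℝ) / ln n) := by
  rw [av_eq hn, ← mul_div_assoc]
  congr 1
  rw [← Finset.sum_filter, Finset.sum_const, nsmul_eq_mul, mul_comm]
  congr 2
  rw [← Set.ncard_coe_finset]
  congr 1
  ext f
  simp only [Finset.coe_filter, Set.Finite.mem_toFinset, Set.mem_ofPred_eq]

theorem sq_exp (t : ℕ) : ((t : ℝ) + 1) ^ 2 ≤ 4 * Real.exp (t / 2) := by
  have ht : (0 : ℝ) ≤ t := Nat.cast_nonneg t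
  have h1 := Real.quadratic_le_exp_of_nonneg (show (0 : ℝ) ≤ t / 4 by positivity)
  have h2 : (t : ℝ) + 1 ≤ 2 * Real.exp (t / 4) := by nlinarith [sq_nonneg ((t : ℝ) / 4 - 1)]
  have h3 := pow_le_pow_left₀ (by positivity) h2 2
  have h4 : (2 * Real.exp ((t : ℝ) / 4)) ^ 2 = 4 * Real.exp (t / 2) := by
    rw [mul_pow, ← Real.exp_nat_mul]
    norm_num
    ring_nf
  linarith

/-- pointwise bound of the powers of the area by the levels -/
theorem area_levels {A L : ℝ} {k T : ℕ} (hA : 0 ≤ A) (hL : 0 < L) (hT : A < (T * L) ^ 2) :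
    A ^ k ≤ ∑ t ∈ range T, (if (t * L) ^ 2 ≤ A then (((t : ℝ) + 1) * L) ^ (2 * k) else 0) := by
  obtain ⟨s, hs⟩ : ∃ s, s = Real.sqrt A := ⟨_, rfl⟩
  have hs0 : 0 ≤ s := by rw [hs]; exact Real.sqrt_nonneg _
  have hs2 : s ^ 2 = A := by rw [hs]; exact Real.sq_sqrt hA
  obtain ⟨t, ht⟩ : ∃ t, t = ⌊s / L⌋₊ := ⟨_, rfl⟩
  have h1 : (t : ℝ) ≤ s / L := by rw [ht]; exact Nat.floor_le (by positivity)
  have h2 : s / L < t + 1 := by rw [ht]; exact Nat.lt_floor_add_one _
  rw [le_div_iff₀ hL] at h1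
  rw [div_lt_iff₀ hL] at h2
  have h3 : s < T * L := by
    rw [← hs2] at hT
    exact lt_of_pow_lt_pow_left₀ 2 (by positivity) hT
  have h4 : t < T := by
    have : (t : ℝ) * L < T * L := lt_of_le_of_lt h1 h3
    have := lt_of_mul_lt_mul_right this hL.le
    exact_mod_cast this
  have h5 : A ^ k ≤ (((t : ℝ) + 1) * L) ^ (2 * k) := by
    rw [pow_mul, ← hs2]
    exact pow_le_pow_left₀ (by positivity) (pow_le_pow_left₀ hs0 h2.le 2) k
  refine h5.trans ?_
  have h6 : (if ((t : ℝ) * L) ^ 2 ≤ A then (((t : ℝ) + 1) * L) ^ (2 * k) else 0) =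
      (((t : ℝ) + 1) * L) ^ (2 * k) := by
    rw [if_pos]
    rw [← hs2]
    exact pow_le_pow_left₀ (by positivity) h1 2
  rw [← h6]
  refine Finset.single_le_sum (f := fun t : ℕ =>
    if ((t : ℝ) * L) ^ 2 ≤ A then (((t : ℝ) + 1) * L) ^ (2 * k) else 0) ?_ (mem_range.2 h4)
  intro i _
  split_ifs
  · positivity
  · exact le_rfl

/-- the moments of the area -/
noncomputable def mom (n k : ℕ) : ℝ := av n (fun f => (area (2 * n) f : ℝ) ^ k)

/-- the moments of the side of the largest enclosed square -/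
noncomputable def smom (n k : ℕ) : ℝ := av n (fun f => (side (2 * n) f : ℝ) ^ k)

theorem smom_le {n : ℕ} (hn : 1 ≤ n) (k : ℕ) : smom n (2 * k) ≤ mom n k := by
  apply av_mono hn
  intro f hf
  rw [pow_mul]
  apply pow_le_pow_left₀ (by positivity)
  exact_mod_cast side_sq_le hn hf

end Pool.Agent.X144.Hm
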